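import Pool.Agent.KS6_90.BP.Fin

set_option autoImplicit false

namespace Pool.Agent.Results.MP_034cab_an.BlochSharp
open Filter Metric Finset Topology Real Pool.Agent.KS6_90 Pool.Agent.H.MP_034cab_an
  Pool.Agent.H.MP_0447a2_lc Pool.Agent.H.MP_f44585_an

/-- `f z = ∑ a n z ^ n` on the unit disc, `a 0 = 1`, positive real part, and
`(1 - |z|^2) |f' z| ≤ C` on the disc. -/
def InC (C : ℝ) (a : ℕ → ℂ) (f : ℂ → ℂ) : Prop :=
  a 0 = 1 ∧ (∀ z ∈ ball (0 : ℂ) 1, HasSum (fun n => a n * z ^ n) (f z)) ∧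
    (∀ z ∈ ball (0 : ℂ) 1, 0 < (f z).re) ∧
    ∀ z ∈ ball (0 : ℂ) 1, (1 - ‖z‖ ^ 2) * ‖deriv f z‖ ≤ C

/-- `S_N = ∑_{1 ≤ n ≤ N} |a n|^2` -/
noncomputable def S (a : ℕ → ℂ) (N : ℕ) : ℝ := ∑ n ∈ Icc 1 N, ‖a n‖ ^ 2

/-- the integral mean `(1 / 2π) ∫ |f (r e^{iθ})|^p dθ` -/
noncomputable def M (p : ℝ) (f : ℂ → ℂ) (r : ℝ) : ℝ := circleAverage (fun z => ‖f z‖ ^ p) 0 r

variable {C : ℝ} {a : ℕ → ℂ} {f : ℂ → ℂ}

theorem good_of (h : InC C a f) : BP.Good C a ∧ ∀ z, ‖z‖ < 1 → f z = PS a z := by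
  obtain ⟨h0, h1, h2, h3⟩ := h
  have e1 : Rd a := (rd_of fun r r0 r1 => by
    have := (h1 r (by simpa [abs_of_pos r0] using r1)).summable.tendsto_atTop_zero.norm
    obtain ⟨B, hB⟩ := this.bddAbove_range
    exact ⟨B, fun n => by simpa [abs_of_pos r0] using hB ⟨n, rfl⟩⟩).1
  have e2 : ∀ z ∈ ball (0 : ℂ) 1, f z = PS a z := fun z hz => (h1 z hz).tsum_eq.symm
  refine ⟨⟨e1, h0, fun z hz => ?_, fun z hz => ?_⟩, fun z hz => e2 z (mem_ball_zero_iff.mpr hz)⟩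
  · exact e2 z (mem_ball_zero_iff.mpr hz) ▸ h2 z (mem_ball_zero_iff.mpr hz)
  · rw [← (e1.der hz).deriv, ← EventuallyEq.deriv_eq (eventually_of_mem
      (isOpen_ball.mem_nhds (mem_ball_zero_iff.mpr hz)) e2)]
    exact h3 z (mem_ball_zero_iff.mpr hz)

theorem of_good (h : BP.Good C a) : InC C a (PS a) := by
  refine ⟨h.one, fun z hz => (h.rd.sum (mem_ball_zero_iff.mp hz)).of_norm.hasSum,
    fun z hz => h.pos z (mem_ball_zero_iff.mp hz), fun z hz => ?_⟩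
  rw [(h.rd.der (mem_ball_zero_iff.mp hz)).deriv]
  exact h.bl z (mem_ball_zero_iff.mp hz)

theorem M_eq (h : ∀ z, ‖z‖ < 1 → f z = PS a z) (p : ℝ) {r : ℝ} (r0 : 0 ≤ r) (r1 : r < 1) :
    M p f r = ∫ t in (0 : ℝ)..1, ‖PS a (√(r ^ 2) * ee t)‖ ^ p := by
  rw [M, BP.cavg, Real.sqrt_sq r0]
  refine intervalIntegral.integral_congr fun t _ => ?_
  rw [h]
  rw [norm_mul, ee_norm, mul_one, Complex.norm_real, Real.norm_of_nonneg r0]
  exact r1

theorem el_le {r : ℝ} (r0 : 0 ≤ r) (r1 : r < 1) :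
    BP.el C (r ^ 2) ≤ 1 + C ^ 2 * log (1 / (1 - r)) := by
  have e : log (1 / (1 - r)) = - log (1 - r) := by rw [one_div, log_inv]
  have : log (1 - r) ≤ log (1 - r ^ 2) := log_le_log (by linarith) (by nlinarith)
  rw [BP.el, e]
  nlinarith [sq_nonneg C]

theorem el_ge {r : ℝ} (r0 : 0 ≤ r) (r1 : r < 1) (h : 2 ≤ log (1 / (1 - r))) :
    1 / 2 * (C ^ 2 * log (1 / (1 - r))) ≤ BP.el C (r ^ 2) := by
  have e : log (1 / (1 - r)) = - log (1 - r) := by rw [one_div, log_inv]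
  have e2 : log (1 - r ^ 2) = log (1 - r) + log (1 + r) := by
    rw [← log_mul (by linarith) (by linarith)]; congr 1; ring
  have e3 : log (1 + r) ≤ r := by
    have := log_le_sub_one_of_pos (show 0 < 1 + r by linarith); linarith
  rw [BP.el, e2]
  rw [e] at h ⊢
  nlinarith [sq_nonneg C]

/-- **Sharp growth in the class, in `N` and in the Bloch constant, for `S_N` and for all integral
means.** -/
theorem result : ∃ K c : ℝ → ℝ, (∀ p, 0 < K p ∧ 0 < c p) ∧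
    (∀ (C : ℝ) (a : ℕ → ℂ) (f : ℂ → ℂ), InC C a f →
      (∀ N : ℕ, 2 ≤ N → S a N ≤ K 2 * √(1 + C ^ 2 * log N)) ∧
      ∀ r : ℝ, 0 ≤ r → r < 1 →
        (∀ p, 1 < p → M p f r ≤ K p * (1 + C ^ 2 * log (1 / (1 - r))) ^ ((p - 1) / 2)) ∧
        M 1 f r ≤ K 1 * (1 + log (1 + C ^ 2 * log (1 / (1 - r)))) ∧
        ∀ p, 0 < p → p < 1 → M p f r ≤ K p) ∧
    ∀ C : ℝ, 0 < C → ∃ (a : ℕ → ℂ) (f : ℂ → ℂ), InC C a f ∧
      (∀ᶠ N : ℕ in atTop, c 2 * (C * √(log N)) ≤ S a N) ∧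
      (∀ p, 1 < p → ∀ᶠ r in 𝓝[<] (1 : ℝ),
        c p * (C ^ 2 * log (1 / (1 - r))) ^ ((p - 1) / 2) ≤ M p f r) ∧
      ∀ᶠ r in 𝓝[<] (1 : ℝ), c 1 * log (log (1 / (1 - r))) ≤ M 1 f r := by
  -- the constants
  have u1 : ∀ p : ℝ, ∃ K, 0 < K ∧ ∀ (C : ℝ) (a : ℕ → ℂ) (f : ℂ → ℂ), InC C a f →
      (p = 2 → ∀ N : ℕ, 2 ≤ N → S a N ≤ K * √(1 + C ^ 2 * log N)) ∧
      ∀ r : ℝ, 0 ≤ r → r < 1 →
        (1 < p → M p f r ≤ K * (1 + C ^ 2 * log (1 / (1 - r))) ^ ((p - 1) / 2)) ∧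
        (p = 1 → M 1 f r ≤ K * (1 + log (1 + C ^ 2 * log (1 / (1 - r))))) ∧
        (0 < p → p < 1 → M p f r ≤ K) := by
    intro p
    obtain ⟨A, A0, hA⟩ := BP.up_two
    obtain ⟨A1, A10, hA1⟩ := BP.up_one
    have hp : ∃ B, 0 < B ∧ (1 < p → ∀ C a, BP.Good C a → ∀ x, 0 ≤ x → x < 1 →
        ∫ t in (0 : ℝ)..1, ‖PS a (√x * ee t)‖ ^ p ≤ B * BP.el C x ^ ((p - 1) / 2)) := by
      by_cases h : 1 < p
      · obtain ⟨B, B0, hB⟩ := BP.up_gt h
        exact ⟨B, B0, fun _ => hB⟩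
      · exact ⟨1, one_pos, fun h' => absurd h' h⟩
    obtain ⟨B, B0, hB⟩ := hp
    refine ⟨4 * A + A1 + B + |1 / cos (p * (π / 2))|, by positivity, fun C a f h => ?_⟩
    obtain ⟨hg, hf⟩ := good_of h
    have l0 : 0 ≤ |1 / cos (p * (π / 2))| := abs_nonneg _
    refine ⟨fun _ N hN => ?_, fun r r0 r1 => ⟨fun h1 => ?_, fun h1 => ?_, fun h1 h2 => ?_⟩⟩
    · refine (BP.S_up hg A0 (hA C a hg) hN).trans ?_
      gcongr
      linarith
    all_goals
      have r2 : 0 ≤ r ^ 2 := by positivity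
      have r3 : r ^ 2 < 1 := by nlinarith
      have l1 := BP.el_one C r2 r3
      have l2 := el_le (C := C) r0 r1
    · rw [M_eq hf p r0 r1]
      refine (hB h1 C a hg _ r2 r3).trans ?_
      have h3 : 0 ≤ (p - 1) / 2 := by linarith
      gcongr
      linarith
    · rw [M_eq hf 1 r0 r1]
      simp only [rpow_one]
      refine (hA1 C a hg _ r2 r3).trans ?_
      have l3 : 0 ≤ log (BP.el C (r ^ 2)) := log_nonneg l1
      have l4 := log_le_log (by linarith) l2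
      exact mul_le_mul (by linarith) (by linarith) (by linarith) (by linarith)
    · rw [M_eq hf p r0 r1]
      refine (BP.up_small h1 h2 hg r2 r3).trans ((le_abs_self _).trans ?_)
      linarith
  have u2 : ∀ c0 : ℝ, 0 < c0 → ∀ p : ℝ, ∃ c, 0 < c ∧ c ≤ c0 ∧ (1 < p → ∀ C a, BP.Good C a →
      ∀ x, 0 ≤ x → x < 1 → c0 * BP.el C x ^ (1 / 2 : ℝ) ≤
        ∫ t in (0 : ℝ)..1, (PS a (√x * ee t)).re ^ 2 →
      (2 : ℝ) ^ ((p - 1) / 2) * c * BP.el C x ^ ((p - 1) / 2) ≤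
        ∫ t in (0 : ℝ)..1, ‖PS a (√x * ee t)‖ ^ p) := by
    intro c0 hc0 p
    by_cases h : 1 < p
    · obtain ⟨A, A0, hA⟩ := BP.lo_gt h hc0
      refine ⟨min c0 (A / 2 ^ ((p - 1) / 2)), by positivity, min_le_left _ _,
        fun _ C a hg x x0 x1 hq => le_trans ?_ (hA C a hg x x0 x1 hq)⟩
      have : 0 < BP.el C x := by linarith [BP.el_one C x0 x1]
      refine mul_le_mul_of_nonneg_right ?_ (by positivity)
      calc _ ≤ (2 : ℝ) ^ ((p - 1) / 2) * (A / 2 ^ ((p - 1) / 2)) := by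
            gcongr; exact min_le_right _ _
        _ = A := by field_simp
    · exact ⟨c0, hc0, le_rfl, fun h' => absurd h' h⟩
  obtain ⟨c0, hc0, hlow⟩ := BP.lower_good
  obtain ⟨A1, D1, A10, hA1⟩ := BP.lo_one hc0
  choose K K0 hK using u1
  choose c c1 c2 hc using u2 c0 hc0
  refine ⟨K, fun p => if p = 1 then A1 / 2 else c p, fun p => ⟨K0 p, ?_⟩, fun C a f h => ?_,
    fun C hC => ?_⟩
  · simp only
    split_ifs
    · positivity
    · exact c1 p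
  · refine ⟨(hK 2 C a f h).1 rfl, fun r r0 r1 => ⟨fun p hp => ((hK p C a f h).2 r r0 r1).1 hp,
      ((hK 1 C a f h).2 r r0 r1).2.1 rfl, fun p h1 h2 => ((hK p C a f h).2 r r0 r1).2.2 h1 h2⟩⟩
  obtain ⟨a, hg, h1, h2⟩ := hlow C hC
  have tt : Tendsto (fun r : ℝ => r ^ 2) (𝓝[<] 1) (𝓝[<] 1) := by
    refine tendsto_nhdsWithin_iff.mpr ⟨?_, ?_⟩
    · have : Tendsto (fun r : ℝ => r ^ 2) (𝓝 1) (𝓝 (1 ^ 2)) := tendsto_id.pow 2
      rw [one_pow] at this
      exact this.mono_left nhdsWithin_le_nhds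
    · filter_upwards [self_mem_nhdsWithin, mem_nhdsWithin_of_mem_nhds
        (lt_mem_nhds (show (0 : ℝ) < 1 by norm_num))] with r r1 r0
      have := Set.mem_Iio.mp r1
      exact Set.mem_Iio.mpr (by nlinarith)
  have tl : Tendsto (fun r : ℝ => log (1 / (1 - r))) (𝓝[<] 1) atTop := by
    have : Tendsto (fun x : ℝ => 1 - x) (𝓝[<] 1) (𝓝[>] 0) := by
      refine tendsto_nhdsWithin_iff.mpr ⟨?_, ?_⟩
      · have : Tendsto (fun x : ℝ => 1 - x) (𝓝 1) (𝓝 (1 - 1)) :=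
          tendsto_const_nhds.sub tendsto_id
        rw [sub_self] at this
        exact this.mono_left nhdsWithin_le_nhds
      · filter_upwards [self_mem_nhdsWithin] with x hx
        exact sub_pos.mpr (Set.mem_Iio.mp hx)
    simp only [one_div, log_inv]
    exact tendsto_neg_atBot_atTop.comp (tendsto_log_nhdsGT_zero.comp this)
  have h2' := tt.eventually h2
  refine ⟨a, PS a, of_good hg, ?_, fun p hp => ?_, ?_⟩
  · filter_upwards [h1] with N hN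
    refine le_trans ?_ hN
    rw [if_neg (by norm_num)]
    have := c2 2
    gcongr
  · filter_upwards [h2', tl.eventually_ge_atTop 2, self_mem_nhdsWithin, mem_nhdsWithin_of_mem_nhds
        (lt_mem_nhds (show (0 : ℝ) < 1 by norm_num))] with r g1 g2 r1 r0
    have r1' : r < 1 := r1
    rw [M_eq (fun _ _ => rfl) p r0.le r1', if_neg hp.ne']
    refine le_trans ?_ (hc p hp C a hg _ (by positivity) (by nlinarith) g1)
    have e := el_ge (C := C) r0.le r1' g2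
    have e0 : 0 < C ^ 2 * log (1 / (1 - r)) := by
      have : 0 < log (1 / (1 - r)) := by linarith
      positivity
    have e2 : 0 ≤ (p - 1) / 2 := by linarith
    have := c1 p
    calc c p * (C ^ 2 * log (1 / (1 - r))) ^ ((p - 1) / 2)
        = 2 ^ ((p - 1) / 2) * c p * (1 / 2 * (C ^ 2 * log (1 / (1 - r)))) ^ ((p - 1) / 2) := by
          have e3 : (1 / 2 : ℝ) ^ ((p - 1) / 2) = (2 ^ ((p - 1) / 2))⁻¹ := by
            rw [← inv_rpow (by norm_num), one_div]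
          rw [mul_rpow (by norm_num) e0.le, e3]
          field_simp
      _ ≤ _ := by gcongr
  · have t2 : Tendsto (fun r : ℝ => 1 / 2 * (C ^ 2 * log (1 / (1 - r)))) (𝓝[<] 1) atTop :=
      (tl.const_mul_atTop (by positivity)).const_mul_atTop (by norm_num)
    filter_upwards [h2', tl.eventually_ge_atTop 2, self_mem_nhdsWithin, mem_nhdsWithin_of_mem_nhds
        (lt_mem_nhds (show (0 : ℝ) < 1 by norm_num)), t2.eventually_ge_atTop D1,
        tl.eventually_ge_atTop (4 / C ^ 4)] with r g1 g2 r1 r0 g3 g4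
    have r1' : r < 1 := r1
    rw [M_eq (fun _ _ => rfl) 1 r0.le r1', if_pos rfl]
    simp only [rpow_one]
    have e := el_ge (C := C) r0.le r1' g2
    refine le_trans ?_ (hA1 C a hg _ (by positivity) (by nlinarith) (g3.trans e) g1)
    obtain ⟨L, hL⟩ : ∃ L, L = log (1 / (1 - r)) := ⟨_, rfl⟩
    rw [← hL] at g2 g4 e ⊢
    have L0 : 0 < L := by linarith
    rw [div_mul_eq_mul_div, mul_div_assoc]
    refine mul_le_mul_of_nonneg_left ?_ A10.le
    rw [div_le_iff₀ two_pos, mul_comm, ← Nat.cast_ofNat (R := ℝ), ← log_pow]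
    refine log_le_log L0 ?_
    have e3 : (1 / 2 * (C ^ 2 * L)) ^ 2 ≤ BP.el C (r ^ 2) ^ 2 := by gcongr
    refine le_trans ?_ e3
    rw [div_le_iff₀ (by positivity)] at g4
    nlinarith

end Pool.Agent.Results.MP_034cab_an.BlochSharp
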